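import Pool.Agent.Y496.BA.F
import Pool.Agent.Y496.BA.G

/-!
# MP_e733ef_an: finer Baire topologies with separable strong dual on all Banach spaces

(A) An infinite-dimensional Banach space `X` has a finer Hausdorff locally convex topology which is
Baire, has a separable strong dual and is not Asplund, if and only if the cardinality of `X` is at
most the continuum. The topology can be chosen such that moreover its bounded sets are
finite-dimensional, all Banach spaces of cardinality at most the continuum are continuous linear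
images, and some continuous convex function is nowhere Gâteaux differentiable. The bound on the
cardinality is also necessary for `X` to be a continuous linear image of any Hausdorff locally
convex space with separable strong dual.

(B) On such a space Fréchet and Gâteaux differentiability are the same for all continuous
convex functions, and along every continuous linear surjection onto a normed space `X` both are
the same as Gâteaux differentiability in `X`.
-/

set_option autoImplicit false

open Set Cardinal Topology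

namespace Pool.Agent.Results.MP_e733ef_an.EveryBanachSpace

open Pool.Agent.Y496.BA

theorem result :
    -- (A)
    (∀ (X : Type) [NormedAddCommGroup X] [NormedSpace ℝ X] [CompleteSpace X],
      ¬ FiniteDimensional ℝ X →
      (#X ≤ 𝔠 ↔ ∃ (E : Type) (_ : AddCommGroup E) (_ : Module ℝ E) (_ : TopologicalSpace E)
        (_ : IsTopologicalAddGroup E) (_ : ContinuousSMul ℝ E), Tame E ∧
        (∃ π : E →L[ℝ] X, Function.Bijective π) ∧
        (∀ (Z : Type) [NormedAddCommGroup Z] [NormedSpace ℝ Z] [CompleteSpace Z], #Z ≤ 𝔠 →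
          ∃ π : E →L[ℝ] Z, Function.Surjective π) ∧
        ¬ IsAsplund E ∧ ¬ IsGDS E ∧
        ∃ f : E → ℝ, Continuous f ∧ ConvexOn ℝ Set.univ f ∧ ∀ z, ¬ GateauxAt Set.univ f z) ∧
      (#X ≤ 𝔠 ↔ ∃ (E : Type) (_ : AddCommGroup E) (_ : Module ℝ E) (_ : TopologicalSpace E)
        (_ : IsTopologicalAddGroup E) (_ : ContinuousSMul ℝ E),
        T2Space E ∧ LocallyConvexSpace ℝ E ∧ TopologicalSpace.SeparableSpace (E →L[ℝ] ℝ) ∧
        ∃ π : E →L[ℝ] X, Function.Surjective π)) ∧
    -- (B)
    (∀ (E : Type) [AddCommGroup E] [Module ℝ E] [TopologicalSpace E] [IsTopologicalAddGroup E]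
      [ContinuousSMul ℝ E], Tame E →
      (∀ D : Set E, IsOpen D → ∀ f : E → ℝ, ContinuousOn f D → ConvexOn ℝ D f → ∀ z ∈ D,
        (FrechetAt D f z ↔ GateauxAt D f z)) ∧
      ∀ (X : Type) [NormedAddCommGroup X] [NormedSpace ℝ X] (π : E →L[ℝ] X),
        Function.Surjective π → Lifts π ∧ (IsGDS E → IsGDS X)) := by
  refine ⟨fun X _ _ _ hinf => ⟨⟨fun h => ?_, ?_⟩, ⟨fun h => ?_, ?_⟩⟩, ?_⟩
  · obtain ⟨E, i1, i2, i3, i4, i5, hE, hπ, hZ⟩ := finer_univ h hinf
    obtain ⟨f, hf1, hf2, hf3⟩ := nowhere (E := E) (fun Z _ _ _ hZc => by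
      obtain ⟨π, hπ⟩ := hZ Z hZc
      exact ⟨π, hπ, lifts_of hπ hE.2.2.2.2⟩)
    have hG : ¬ IsGDS E := by
      intro hG
      obtain ⟨S, -, hS1, hS2⟩ := hG Set.univ ⟨0, trivial⟩ isOpen_univ convex_univ f
        hf1.continuousOn hf2
      have hne : S.Nonempty := by
        rw [← closure_nonempty_iff]
        exact ⟨0, hS1 trivial⟩
      obtain ⟨z, hz⟩ := hne
      exact hf3 z (hS2 z hz)
    exact ⟨E, i1, i2, i3, i4, i5, hE, hπ, fun Z _ _ _ hZc => hZ Z hZc, fun hA => hG hA.gds, hG,
      f, hf1, hf2, hf3⟩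
  · rintro ⟨E, i1, i2, i3, i4, i5, ⟨h1, h2, -, h3, -⟩, ⟨π, hπ⟩, -⟩
    exact (Cardinal.mk_le_of_surjective hπ.2).trans card_of_sep
  · obtain ⟨E, i1, i2, i3, i4, i5, hE, ⟨π, hπ⟩, -⟩ := finer_univ h hinf
    exact ⟨E, i1, i2, i3, i4, i5, hE.1, hE.2.1, hE.2.2.2.1, π, hπ.2⟩
  · rintro ⟨E, i1, i2, i3, i4, i5, h1, h2, h3, π, hπ⟩
    exact (Cardinal.mk_le_of_surjective hπ).trans card_of_sep
  · intro E _ _ _ _ _ hE
    refine ⟨fun D hD f hf hc z hz => ⟨fun h => h.gateaux, fun h => ?_⟩,
      fun X _ _ π hπ => ⟨lifts_of hπ hE.2.2.2.2, gds_of_surj hπ⟩⟩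
    have := hE.1
    exact frechet_of_gateaux hE.2.2.2.2 hD hf hc hz h

end Pool.Agent.Results.MP_e733ef_an.EveryBanachSpace
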